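import Pool.Agent.W751.RV.Stm
import Pool.Agent.W327.RD.Dyn

/-! # Project RV: DETA, two trapping discs, around zero and around infinity -/

set_option autoImplicit false

open Polynomial Filter Topology MeasureTheory
open scoped OnePoint

namespace Pool.Agent.W308.RV

open Pool.Agent.H762R2.Rt Pool.Agent.H462R2.AP
open Pool.Agent.Helper114.Herman Pool.Agent.Helper114.Konig
open Pool.Agent.W751.CD Pool.Agent.W751.RV
open W327.RD (cauchy_lip P_monic P_natDegree P_eval hom_C hom_P)

theorem Q_eval {N : ℕ} (q : Fin N → ℂ) (w : ℂ) : (Q q).eval w = ∏ i, (1 - q i * w) := by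
  unfold Q
  rw [eval_prod]
  simp

theorem lin_natDegree (a : ℂ) : (1 - C a * X : ℂ[X]).natDegree ≤ 1 := by
  refine (natDegree_sub_le _ _).trans ?_
  rw [natDegree_one]
  exact max_le (Nat.zero_le _) ((natDegree_C_mul_le a X).trans natDegree_X_le)

theorem Q_natDegree {N : ℕ} (q : Fin N → ℂ) : (Q q).natDegree ≤ N := by
  unfold Q
  refine (natDegree_prod_le _ _).trans ?_
  refine (Finset.sum_le_sum fun i _ => lin_natDegree (q i)).trans ?_
  simp

theorem hom_Q {N : ℕ} (q : Fin N → ℂ) (x : ℂ) : hom (Q q) N 1 x = (P q).eval x := by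
  by_cases hx : x = 0
  · subst hx
    rw [hom_zero, one_pow, mul_one, P_eval]
    have h1 := coeff_prod_of_natDegree_le (s := Finset.univ) (fun i => (1 - C (q i) * X : ℂ[X])) 1
      (fun i _ => lin_natDegree (q i))
    have h2 : (Finset.univ : Finset (Fin N)).card * 1 = N := by simp
    rw [h2] at h1
    unfold Q
    rw [h1]
    refine Finset.prod_congr rfl fun i _ => ?_
    simp [coeff_one]
  · rw [hom_ne (Q_natDegree q) hx, Q_eval, P_eval]
    have h2 : x ^ N = ∏ _i : Fin N, x := by simp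
    rw [h2, ← Finset.prod_mul_distrib]
    refine Finset.prod_congr rfl fun i _ => ?_
    field_simp

theorem Q_ne_zero {N : ℕ} (q : Fin N → ℂ) : Q q ≠ 0 := by
  intro h
  have h1 := Q_eval q 0
  rw [h, eval_zero] at h1
  simp at h1

theorem coprime_lin {z q : ℂ} (h : 1 - q * z ≠ 0) : IsCoprime (X - C z : ℂ[X]) (1 - C q * X) := by
  refine ⟨C ((1 - q * z)⁻¹) * C q, C ((1 - q * z)⁻¹), ?_⟩
  have h1 : (C q * (X - C z) + (1 - C q * X) : ℂ[X]) = C (1 - q * z) := by
    rw [C_sub, C_mul, C_1]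
    ring
  calc C ((1 - q * z)⁻¹) * C q * (X - C z) + C ((1 - q * z)⁻¹) * (1 - C q * X)
      = C ((1 - q * z)⁻¹) * (C q * (X - C z) + (1 - C q * X)) := by ring
    _ = 1 := by rw [h1, ← C_mul, inv_mul_cancel₀ h, C_1]

theorem coprime_PQ {N : ℕ} {z q : Fin N → ℂ} {ρ σ : ℝ} (hρσ : ρ * σ < 1) (hσ : 0 < σ)
    (hz : ∀ i, ‖z i‖ ≤ ρ) (hq : ∀ i, ‖q i‖ ≤ σ) : IsCoprime (P z) (Q q) := by
  unfold P Q
  refine IsCoprime.prod_left fun i _ => IsCoprime.prod_right fun j _ => ?_
  apply coprime_lin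
  intro h
  have h1 : q j * z i = 1 := by linear_combination -h
  have h2 : ‖q j‖ * ‖z i‖ = 1 := by rw [← norm_mul, h1, norm_one]
  have h3 : ‖q j‖ * ‖z i‖ ≤ σ * ρ :=
    mul_le_mul (hq j) (hz i) (norm_nonneg _) hσ.le
  linarith [mul_comm σ ρ]

theorem deta : S_DETA := by
  intro hW N ρ σ s t z q α hN hρ hσ hρσ hz hq hα hρs hσt h1 h2
  have hs : 0 < s := hρ.trans_le hρs
  have ht : 0 < t := hσ.trans_le hσt
  have hcop0 : IsCoprime (P z) (Q q) := coprime_PQ hρσ hσ hz hq
  have hCa : IsUnit (C α : ℂ[X]) := isUnit_C.2 hα.isUnit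
  have hcop : IsCoprime (C α * P z) (Q q) := (isCoprime_mul_unit_left_left hCa _ _).2 hcop0
  obtain ⟨f, hf, -⟩ := exists_isRat hcop (Q_ne_zero q)
  refine ⟨hcop, f, hf.cont, hf.eval, ?_⟩
  have hdP : (C α * P z).natDegree = N := by
    rw [natDegree_C_mul hα, P_natDegree]
  have hD : N = max (C α * P z).natDegree (Q q).natDegree := by
    rw [hdP, max_eq_left (Q_natDegree q)]
  have hN0 : 0 < N := hN
  -- the map in the charts
  obtain ⟨nm, hnm⟩ : ∃ nm : Bool → ℂ → ℂ,
    nm = fun i w => if i then (P q).eval w else α * (P z).eval w := ⟨_, rfl⟩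
  obtain ⟨dn, hdn⟩ : ∃ dn : Bool → ℂ → ℂ,
    dn = fun i w => if i then α * (Q z).eval w else (Q q).eval w := ⟨_, rfl⟩
  obtain ⟨R, hR⟩ : ∃ R : Bool → ℝ, R = fun i => if i then t else s := ⟨_, rfl⟩
  have hR0 : ∀ i, 0 < R i := by
    intro i; rw [hR]; cases i <;> simp [hs, ht]
  have hRt : R true = t := by rw [hR]; simp
  have hRf : R false = s := by rw [hR]; simp
  have hb : ∀ i w, ‖w‖ ≤ R i → ‖nm i w‖ < R i / 4 * ‖dn i w‖ := by
    intro i w hw
    cases i
    · rw [hRf] at hw ⊢
      rw [hnm, hdn]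
      simp only [Bool.false_eq_true, if_false]
      exact h1 w hw
    · rw [hRt] at hw ⊢
      rw [hnm, hdn]
      simp only [if_true]
      exact h2 w hw
  have hdn0 : ∀ i w, ‖w‖ ≤ R i → dn i w ≠ 0 := by
    intro i w hw h0
    have := hb i w hw
    rw [h0, norm_zero, mul_zero] at this
    exact absurd (norm_nonneg _) (not_le.2 this)
  have hpr : ∀ w : ℂ, f (w : OnePoint ℂ) = pr (α * (P z).eval w) ((Q q).eval w) := by
    intro w
    have e1 : (w : OnePoint ℂ) = pr w 1 := by rw [pr_one]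
    rw [e1, rat_formula hf hD hN0 (Or.inr one_ne_zero), hom_ne (le_of_eq hdP) one_ne_zero,
      hom_ne (Q_natDegree q) one_ne_zero]
    simp
  have hfch : ∀ i w, ‖w‖ ≤ R i → f (ch i w) = ch i (nm i w / dn i w) := by
    intro i w hw
    have h0 := hdn0 i w hw
    cases i
    · rw [hnm, hdn]
      rw [hdn] at h0
      simp only [Bool.false_eq_true, if_false, ch_false] at h0 ⊢
      rw [hpr, pr_ne h0]
    · rw [hnm, hdn]
      rw [hdn] at h0
      simp only [if_true] at h0 ⊢
      have e1 : ch true w = pr 1 w := by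
        simp only [ch_true]
        rw [← pr_one w, sinv_pr (Or.inr one_ne_zero)]
      rw [e1, rat_formula hf hD hN0 (Or.inl one_ne_zero), hom_C, hom_P, hom_Q]
      have e2 : Pool.Agent.W751.RD.Pr z w = (Q z).eval w := by
        rw [Q_eval]
        rfl
      rw [e2, ch_true]
      simp only
      rw [← pr_ne h0, sinv_pr (Or.inr h0)]
  obtain ⟨G, hG⟩ : ∃ G : Bool → ℂ → ℂ,
    G = fun i y => nm i (R i * y) / dn i (R i * y) / R i := ⟨_, rfl⟩
  have hRc : ∀ i, (R i : ℂ) ≠ 0 := fun i => by exact_mod_cast (hR0 i).ne'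
  have hnrm : ∀ i (y : ℂ), y ∈ Metric.closedBall (0 : ℂ) 1 → ‖(R i : ℂ) * y‖ ≤ R i := by
    intro i y hy
    rw [mem_closedBall_zero_iff] at hy
    rw [norm_mul, Complex.norm_real, Real.norm_eq_abs, abs_of_pos (hR0 i)]
    nlinarith [hR0 i]
  have hconj : ∀ i, ∀ y ∈ Metric.closedBall (0 : ℂ) 1,
      f (ch i (R i * y)) = ch i (R i * G i y) := by
    intro i y hy
    rw [hfch i _ (hnrm i y hy), hG]
    simp only
    rw [mul_div_cancel₀ _ (hRc i)]
  have hvb : ∀ i w, ‖w‖ ≤ R i → ‖nm i w / dn i w / R i‖ < 1 / 4 := by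
    intro i w hw
    have h3 := hb i w hw
    have h4 : 0 < ‖dn i w‖ := norm_pos_iff.2 (hdn0 i w hw)
    rw [norm_div, norm_div, Complex.norm_real, Real.norm_eq_abs, abs_of_pos (hR0 i),
      div_lt_iff₀ (hR0 i), div_lt_iff₀ h4]
    linarith
  have hGb : ∀ i, ∀ y ∈ Metric.closedBall (0 : ℂ) 1, ‖G i y‖ < 1 / 4 := by
    intro i y hy
    rw [hG]
    exact hvb i _ (hnrm i y hy)
  have hnmd : ∀ i, Differentiable ℂ (nm i) := by
    intro i
    rw [hnm]
    cases i
    · simp only [Bool.false_eq_true, if_false]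
      exact (P z).differentiable.const_mul α
    · simp only [if_true]
      exact (P q).differentiable
  have hdnd : ∀ i, Differentiable ℂ (dn i) := by
    intro i
    rw [hdn]
    cases i
    · simp only [Bool.false_eq_true, if_false]
      exact (Q q).differentiable
    · simp only [if_true]
      exact (Q z).differentiable.const_mul α
  have hGd : ∀ i, ∀ y ∈ Metric.closedBall (0 : ℂ) 1, DifferentiableAt ℂ (G i) y := by
    intro i y hy
    rw [hG]
    have hl : DifferentiableAt ℂ (fun y : ℂ => (R i : ℂ) * y) y :=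
      differentiableAt_id.const_mul _
    exact (((hnmd i _).comp y hl).fun_div ((hdnd i _).comp y hl)
      (hdn0 i _ (hnrm i y hy))).div_const _
  have hhalf : ∀ x : ℂ, ‖x‖ ≤ 1 / 2 → x ∈ Metric.closedBall (0 : ℂ) 1 := by
    intro x hx
    rw [mem_closedBall_zero_iff]; linarith
  have hS : ∀ i (x : ℂ), ‖x‖ ≤ 1 / 2 → Sinks f (ch i (R i * x)) := by
    intro i x hx
    have hψc : ∀ i, Continuous (fun y : ℂ => ch i (R i * y)) := fun i =>
      (continuous_ch i).comp (continuous_const.mul continuous_id)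
    have hψo : ∀ i, IsOpenMap (fun y : ℂ => ch i (R i * y)) := fun i =>
      (isOpenMap_ch i).comp (Homeomorph.mulLeft₀ (R i : ℂ) (hRc i)).isOpenMap
    exact two_charts' (ψ := fun i y => ch i (R i * y)) (σ := fun i => i) (τ := fun _ => 1) (h := G)
      (r := 1 / 2) hf.cont (by norm_num) (fun _ => one_pos) hψc hψo
      (fun i x hx => by rw [Function.iterate_one]; exact hconj i x (hhalf x hx))
      (fun i x hx => (hGb i x (hhalf x hx)).trans (by norm_num))
      (fun i x y hx hy => cauchy_lip (hGd i) (hGb i) hx hy) hx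
  have trap : ∀ i (w : ℂ), ‖w‖ ≤ R i → Sinks f (ch i w) := by
    intro i w hw
    apply sinks_of_image hf.cont
    rw [hfch i w hw]
    have e1 : nm i w / dn i w = R i * (nm i w / dn i w / R i) := by
      rw [mul_div_cancel₀ _ (hRc i)]
    rw [e1]
    exact hS i _ ((hvb i w hw).le.trans (by norm_num))
  have hinf : Sinks f ∞ := by
    have e1 : ch true 0 = ∞ := by simp [ch, sinv_zero]
    rw [← e1]
    exact trap true 0 (by rw [norm_zero]; exact (hR0 _).le)
  intro c hnot
  induction c using OnePoint.rec with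
  | infty => exact hinf
  | coe w =>
    by_cases hp : (Q q).eval w = 0
    · apply sinks_of_image hf.cont
      rw [hpr, hp, pr_zero]
      exact hinf
    by_cases hC : Crit z q w
    · rcases le_or_gt ‖w‖ ρ with hw | hw
      · have e1 : ch false w = (w : OnePoint ℂ) := by rw [ch_false]
        rw [← e1]
        exact trap false w (by rw [hRf]; exact hw.trans hρs)
      · rcases lt_or_ge (‖w‖ * σ) 1 with hw' | hw'
        · exact absurd hC (hW N ρ σ z q hN hρ hσ hρσ hz hq w hw hw')
        · have hwpos : 0 < ‖w‖ := hρ.trans hw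
          have hw0 : w ≠ 0 := norm_pos_iff.1 hwpos
          have e1 : ch true w⁻¹ = (w : OnePoint ℂ) := by
            rw [ch_true]
            simp only
            rw [sinv_coe (inv_ne_zero hw0), inv_inv]
          rw [← e1]
          refine trap true w⁻¹ ?_
          rw [hRt, norm_inv]
          refine le_trans ?_ hσt
          rw [inv_le_iff_one_le_mul₀ hwpos]
          linarith [mul_comm ‖w‖ σ]
    exfalso
    apply hnot
    have hder := ((C α * P z).hasStrictDerivAt w).fun_div ((Q q).hasStrictDerivAt w) hp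
    have hne : ((C α * P z).derivative.eval w * (Q q).eval w -
        (C α * P z).eval w * (Q q).derivative.eval w) / ((Q q).eval w) ^ 2 ≠ 0 := by
      apply div_ne_zero _ (pow_ne_zero _ hp)
      have e1 : (C α * P z).derivative.eval w * (Q q).eval w -
          (C α * P z).eval w * (Q q).derivative.eval w =
          α * ((derivative (P z)).eval w * (Q q).eval w -
            (P z).eval w * (derivative (Q q)).eval w) := by
        rw [derivative_C_mul]
        simp only [eval_mul, eval_C]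
        ring
      rw [e1]
      exact mul_ne_zero hα (sub_ne_zero.2 hC)
    obtain ⟨U, hU, hinj⟩ := injOn_of_deriv hder hne
    have hUQ : {x : ℂ | (Q q).eval x ≠ 0} ∈ 𝓝 w :=
      (isOpen_ne_fun (Q q).continuous continuous_const).mem_nhds hp
    refine ⟨(fun x : ℂ => (x : OnePoint ℂ)) '' (U ∩ {x : ℂ | (Q q).eval x ≠ 0}), ?_, ?_⟩
    · exact (OnePoint.isOpenEmbedding_coe (X := ℂ)).isOpenMap.image_mem_nhds
        (inter_mem hU hUQ)
    · rintro _ ⟨x, ⟨hx, hxQ⟩, rfl⟩ _ ⟨y, ⟨hy, hyQ⟩, rfl⟩ hxy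
      simp only at hxy
      rw [hf.eval x hxQ, hf.eval y hyQ, OnePoint.coe_eq_coe] at hxy
      rw [hinj hx hy hxy]

end Pool.Agent.W308.RV
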